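import Pool.Agent.Helper39.EK.E1a

/-!
E1b: the energy on the strip (change of variables from the disc).
-/

set_option autoImplicit false

open Complex MeasureTheory Metric Set
open scoped Real ComplexConjugate ENNReal

namespace Pool.Agent.Helper86.EK

open Pool.Agent.Helper39.Area Pool.Agent.Helper52.EK Pool.Agent.Helper39.EK

theorem det_cmul (c : ℂ) : |(c • (1 : ℂ →L[ℝ] ℂ)).det| = ‖c‖ ^ 2 := by
  have h : (c • (1 : ℂ →L[ℝ] ℂ)).det = ‖c‖ ^ 2 := by
    have h1 : (((c • (1 : ℂ →L[ℝ] ℂ)) : ℂ →L[ℝ] ℂ) : ℂ →ₗ[ℝ] ℂ) =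
        ((c • (LinearMap.id : ℂ →ₗ[ℂ] ℂ)).restrictScalars ℝ) := by
      ext
      all_goals simp
    rw [ContinuousLinearMap.det, h1, LinearMap.det_restrictScalars]
    simp [Algebra.norm_complex_eq, Complex.normSq_eq_norm_sq]
  rw [h, abs_of_nonneg (by positivity)]

theorem pt_eq (ξ η : ℝ) : pt ξ η = ⟨ξ, η⟩ := by
  rw [pt, ← Complex.mk_eq_add_mul_I]

/-- the double integral as an integral over a set of the plane -/
theorem II_eq {F : ℂ → ℝ} {x₁ x₂ : ℝ} (hx : x₁ ≤ x₂) (hF : ContinuousOn F (Rect x₁ x₂)) :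
    II x₁ x₂ (fun ξ η => F (pt ξ η)) = ∫ z in Ioo x₁ x₂ ×ℂ Ioo 0 π, F z := by
  have hπ := Real.pi_pos
  have hc : ContinuousOn (fun p : ℝ × ℝ => F (pt p.1 p.2)) (Icc x₁ x₂ ×ˢ Icc 0 π) := by
    apply hF.comp (by unfold pt; fun_prop)
    rintro ⟨ξ, η⟩ ⟨h1, h2⟩
    simp only [pt_eq]
    exact ⟨h1, h2⟩
  have hi : IntegrableOn (fun p : ℝ × ℝ => F (pt p.1 p.2)) (Ioo x₁ x₂ ×ˢ Ioo 0 π)
      ((volume : Measure ℝ).prod (volume : Measure ℝ)) :=
    (hc.integrableOn_compact (isCompact_Icc.prod isCompact_Icc)).mono_set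
      (prod_mono Ioo_subset_Icc_self Ioo_subset_Icc_self)
  rw [II, intervalIntegral.integral_of_le hx, integral_Ioc_eq_integral_Ioo]
  have h1 : ∀ ξ : ℝ, (∫ η in (0:ℝ)..π, F (pt ξ η)) = ∫ η in Ioo 0 π, F (pt ξ η) := fun ξ => by
    rw [intervalIntegral.integral_of_le hπ.le, integral_Ioc_eq_integral_Ioo]
  simp_rw [h1]
  rw [← setIntegral_prod (fun p : ℝ × ℝ => F (pt p.1 p.2)) hi]
  have h2 := (Complex.volume_preserving_equiv_real_prod.symm _).setIntegral_preimage_emb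
    Complex.measurableEquivRealProd.symm.measurableEmbedding F (Ioo x₁ x₂ ×ℂ Ioo 0 π)
  rw [← h2, ← Measure.volume_eq_prod]
  congr 1
  ext p
  rw [pt_eq]
  rfl

section
variable {a x₁ x₂ : ℝ} {ω : ℂ}

theorem norm_exp_lt (h2 : x₂ < 0) (hω : ω ∈ Rect x₁ x₂) : ‖Complex.exp ω‖ < 1 := by
  rw [Complex.norm_exp, Real.exp_lt_one_iff]
  exact lt_of_le_of_lt hω.1.2 h2

theorem tau_pos (ha : 0 < a) (ha1 : a < 1) : 0 < tau a := by
  unfold tau
  have : 0 < 1 - a := by linarith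
  positivity

theorem tau_lt_exp (ha : 0 < a) (ha1 : a < 1) (h1 : Real.log (tau a) < x₁)
    (hω : ω ∈ Rect x₁ x₂) : tau a < ‖Complex.exp ω‖ := by
  rw [Complex.norm_exp, ← Real.log_lt_iff_lt_exp (tau_pos ha ha1)]
  exact lt_of_lt_of_le h1 hω.1.1

theorem exp_im_nonneg (hω : ω ∈ Rect x₁ x₂) : 0 ≤ (Complex.exp ω).im := by
  rw [Complex.exp_im]
  exact mul_nonneg (Real.exp_pos _).le (Real.sin_nonneg_of_nonneg_of_le_pi hω.2.1 hω.2.2)

theorem exp_ne_I (h2 : x₂ < 0) (hω : ω ∈ Rect x₁ x₂) : I - Complex.exp ω ≠ 0 := by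
  intro h
  have h3 := norm_exp_lt h2 hω
  rw [← sub_eq_zero.mp h, norm_I] at h3
  exact lt_irrefl _ h3

theorem exp_ne_neg_I (hω : ω ∈ Rect x₁ x₂) : I + Complex.exp ω ≠ 0 := by
  intro h
  have h3 := exp_im_nonneg hω
  have h4 := congrArg Complex.im h
  simp only [Complex.add_im, Complex.I_im, Complex.zero_im] at h4
  linarith

theorem zf_ne_zero (h2 : x₂ < 0) (hω : ω ∈ Rect x₁ x₂) : zf ω ≠ 0 :=
  div_ne_zero (exp_ne_I h2 hω) (exp_ne_neg_I hω)

theorem norm_zf_le (hω : ω ∈ Rect x₁ x₂) : ‖zf ω‖ ≤ 1 := by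
  have h1 := exp_im_nonneg hω
  rw [zf, norm_div, div_le_one (norm_pos_iff.mpr (exp_ne_neg_I hω))]
  rw [← Real.sqrt_sq (norm_nonneg (I - Complex.exp ω)),
    ← Real.sqrt_sq (norm_nonneg (I + Complex.exp ω))]
  apply Real.sqrt_le_sqrt
  rw [← Complex.normSq_eq_norm_sq, ← Complex.normSq_eq_norm_sq, Complex.normSq_apply,
    Complex.normSq_apply]
  simp only [Complex.sub_re, Complex.add_re, Complex.sub_im, Complex.add_im, Complex.I_re,
    Complex.I_im]
  nlinarith

theorem norm_zf_lt (h : 0 < (Complex.exp ω).im) : ‖zf ω‖ < 1 := by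
  have h0 : I + Complex.exp ω ≠ 0 := by
    intro h3
    have h4 := congrArg Complex.im h3
    simp only [Complex.add_im, Complex.I_im, Complex.zero_im] at h4
    linarith
  rw [zf, norm_div, div_lt_one (norm_pos_iff.mpr h0)]
  rw [← Real.sqrt_sq (norm_nonneg (I - Complex.exp ω)),
    ← Real.sqrt_sq (norm_nonneg (I + Complex.exp ω))]
  apply Real.sqrt_lt_sqrt (by positivity)
  rw [← Complex.normSq_eq_norm_sq, ← Complex.normSq_eq_norm_sq, Complex.normSq_apply,
    Complex.normSq_apply]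
  simp only [Complex.sub_re, Complex.add_re, Complex.sub_im, Complex.add_im, Complex.I_re,
    Complex.I_im]
  nlinarith

theorem sq_add_tau_ne (ha : 0 < a) (ha1 : a < 1) (h1 : Real.log (tau a) < x₁)
    (hω : ω ∈ Rect x₁ x₂) : Complex.exp ω ^ 2 + (tau a : ℂ) ^ 2 ≠ 0 := by
  intro h
  have h3 := tau_lt_exp ha ha1 h1 hω
  have h4 := tau_pos ha ha1
  have h5 : ‖Complex.exp ω‖ ^ 2 = tau a ^ 2 := by
    rw [← norm_pow, eq_neg_of_add_eq_zero_left h, norm_neg, norm_pow, Complex.norm_real,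
      Real.norm_of_nonneg h4.le]
  nlinarith

theorem sq_add_one_ne (h2 : x₂ < 0) (hω : ω ∈ Rect x₁ x₂) : Complex.exp ω ^ 2 + 1 ≠ 0 := by
  intro h
  have h3 := norm_exp_lt h2 hω
  have h5 : ‖Complex.exp ω‖ ^ 2 = 1 := by
    rw [← norm_pow, eq_neg_of_add_eq_zero_left h, norm_neg, norm_one]
  nlinarith [norm_nonneg (Complex.exp ω)]

theorem zf_ne_a (ha : 0 < a) (ha1 : a < 1) (h1 : Real.log (tau a) < x₁)
    (hω : ω ∈ Rect x₁ x₂) : zf ω ≠ a := by
  intro h
  apply sq_add_tau_ne ha ha1 h1 hω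
  have h0 := exp_ne_neg_I hω
  rw [zf, div_eq_iff h0] at h
  have ha2 : (1 + (a:ℂ)) ≠ 0 := by
    have : ((1 + a : ℝ) : ℂ) ≠ 0 := by exact_mod_cast (by positivity)
    simpa using this
  have h3 : Complex.exp ω = I * (tau a : ℂ) := by
    rw [tau]
    push_cast
    field_simp
    linear_combination -h
  rw [h3, mul_pow, I_sq]
  ring

theorem hasDerivAt_zf (hω : I + Complex.exp ω ≠ 0) : HasDerivAt zf (zd ω) ω := by
  have h1 : HasDerivAt (fun w : ℂ => I - Complex.exp w) (-Complex.exp ω) ω :=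
    (Complex.hasDerivAt_exp ω).const_sub I
  have h2 : HasDerivAt (fun w : ℂ => I + Complex.exp w) (Complex.exp ω) ω :=
    (Complex.hasDerivAt_exp ω).const_add I
  have h3 := h1.div h2 hω
  have h4 : zd ω = (-Complex.exp ω * (I + Complex.exp ω) - (I - Complex.exp ω) * Complex.exp ω) /
      (I + Complex.exp ω) ^ 2 := by
    rw [zd, add_comm (Complex.exp ω) I]
    congr 1
    ring
  rw [h4]
  exact h3

/-- the chain rule identity -/
theorem zd_Dd {β : ℂ → ℂ} (ha : 0 < a) (ha1 : a < 1) (h1 : Real.log (tau a) < x₁)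
    (h2 : x₂ < 0) (hω : ω ∈ Rect x₁ x₂) :
    zd ω * Dd β a (zf ω) = 2 * Xf β a ω - 2 * kap a ω := by
  have hX : 2 * Xf β a ω = zd ω * (dphi β (zf ω) / (phi β (zf ω) - phi β (a:ℂ))) := by
    rw [Xf]
    by_cases h : phi β (zf ω) - phi β (a:ℂ) = 0
    · rw [h]; simp
    · field_simp
  have hk : zd ω * (-(zf ω)⁻¹ + (zf ω - a)⁻¹ - a / (1 - a * zf ω)) = 2 * kap a ω := by
    have e1 := exp_ne_I h2 hω
    have e2 := exp_ne_neg_I hω
    have e3 := sq_add_tau_ne ha ha1 h1 hω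
    have e4 := sq_add_one_ne h2 hω
    have e5 : (1 + (a:ℂ)) ≠ 0 := by
      have : ((1 + a : ℝ) : ℂ) ≠ 0 := by exact_mod_cast (by positivity)
      simpa using this
    set E := Complex.exp ω with hE
    have ht : (tau a : ℂ) = (1 - a) / (1 + a) := by rw [tau]; push_cast; ring
    set t : ℂ := (tau a : ℂ) with htt
    have e6 : E ^ 2 + t ^ 2 = (E - I * t) * (E + I * t) := by
      linear_combination (t ^ 2) * I_sq
    have e7 : E - I * t ≠ 0 := fun h => e3 (by rw [e6, h, zero_mul])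
    have e8 : E + I * t ≠ 0 := fun h => e3 (by rw [e6, h, mul_zero])
    have f1 : zf ω - a = (1 + a) * (I * t - E) / (I + E) := by
      rw [zf, ← hE, ht]
      field_simp
      ring
    have f2 : 1 - a * zf ω = (1 + a) * (I * t + E) / (I + E) := by
      rw [zf, ← hE, ht]
      field_simp
      ring
    have e7' : I * t - E ≠ 0 := fun h => e7 (by linear_combination -h)
    have e8' : I * t + E ≠ 0 := fun h => e8 (by linear_combination h)
    rw [f1, f2, zd, kap, zf, ← hE, e6]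
    have e9 : E ^ 2 + 1 = -(I - E) * (I + E) := by linear_combination I_sq
    rw [e9]
    have e10 : E + I = I + E := add_comm _ _
    rw [e10]
    have e11 : (1 + a : ℂ) * t = 1 - a := by rw [ht]; field_simp
    have e12 : (1 + t) ≠ 0 := by
      intro h
      have : (1 + a : ℂ) * (1 + t) = 2 := by linear_combination e11
      rw [h, mul_zero] at this
      norm_num at this
    have e13 : (a:ℂ) = (1 - t) / (1 + t) := by
      rw [eq_div_iff e12]
      linear_combination e11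
    have e14 : (1 + a : ℂ) = 2 / (1 + t) := by
      rw [e13]
      field_simp
      ring
    rw [e14, e13]
    field_simp
    ring_nf
    simp only [I_sq, I_pow_four]
    ring
  rw [Dd, mul_sub, hX, hk]

end

theorem lint_ball {β : ℂ → ℂ} (h : Ext β) {a : ℝ} (ha : 0 < a) (ha1 : a < 1) :
    ∫⁻ z in ball (0:ℂ) 1, ENNReal.ofReal (‖Dd β a z‖ ^ 2) ≤
      ENNReal.ofReal (2 * π * Real.log (‖N β a‖ / (1 - a ^ 2))) := by
  set r : ℕ → ℝ := fun n => 1 - (1 - a) / (n + 2) with hrdef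
  have h1a : 0 < 1 - a := by linarith
  have hr : ∀ n, a < r n ∧ r n < 1 := by
    intro n
    have hn : (0:ℝ) ≤ n := Nat.cast_nonneg n
    constructor
    · have : (1 - a) / ((n:ℝ) + 2) < 1 - a := by
        rw [div_lt_iff₀ (by positivity)]
        nlinarith
      simp only [hrdef]
      linarith
    · have : 0 < (1 - a) / ((n:ℝ) + 2) := by positivity
      simp only [hrdef]
      linarith
  have hmono : Monotone r := by
    intro m n hmn
    have hmn' : (m:ℝ) ≤ n := by exact_mod_cast hmn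
    have hm : (0:ℝ) ≤ m := Nat.cast_nonneg m
    simp only [hrdef]
    have : (1 - a) / ((n:ℝ) + 2) ≤ (1 - a) / ((m:ℝ) + 2) := by gcongr
    linarith
  have hU : ball (0:ℂ) 1 = ⋃ n, ball 0 (r n) := by
    ext z
    rw [mem_iUnion]
    constructor
    · intro hz
      rw [mem_ball, dist_zero_right] at hz
      obtain ⟨n, hn⟩ := exists_nat_gt ((1 - a) / (1 - ‖z‖))
      have hz1 : 0 < 1 - ‖z‖ := by linarith
      refine ⟨n, ?_⟩
      rw [mem_ball, dist_zero_right]
      rw [div_lt_iff₀ hz1] at hn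
      have hn0 : (0:ℝ) ≤ n := Nat.cast_nonneg n
      have : (1 - a) / ((n:ℝ) + 2) < 1 - ‖z‖ := by
        rw [div_lt_iff₀ (by positivity)]
        nlinarith
      simp only [hrdef]
      linarith
    · rintro ⟨n, hn⟩
      exact ball_subset_ball (hr n).2.le hn
  rw [hU, setLIntegral_iUnion_of_directed _
    (Monotone.directed_le (fun m n hmn => ball_subset_ball (hmono hmn)))]
  refine iSup_le fun n => ?_
  obtain ⟨hi, hle⟩ := E1a h ha (hr n).1 (hr n).2
  rw [← ofReal_integral_eq_lintegral_ofReal hi (Filter.Eventually.of_forall fun _ => by positivity)]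
  exact ENNReal.ofReal_le_ofReal hle

/-- continuity of the integrand on the closed rectangle -/
theorem cont_F {β : ℂ → ℂ} {R : ℝ} (h : ExtR β R) {a : ℝ} (ha : 0 < a) (ha1 : a < 1) {x₁ x₂ : ℝ}
    (h1 : Real.log (tau a) < x₁) (h2 : x₂ < 0) :
    ContinuousOn (fun ω => ‖2 * Xf β a ω - 2 * kap a ω‖ ^ 2) (Rect x₁ x₂) := by
  have hR := h.one_lt
  have hzc : ContinuousOn zf (Rect x₁ x₂) := fun ω hω =>
    (hasDerivAt_zf (exp_ne_neg_I hω)).continuousAt.continuousWithinAt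
  have hmaps : MapsTo zf (Rect x₁ x₂) (ball 0 R) := by
    intro ω hω
    rw [mem_ball, dist_zero_right]
    exact lt_of_le_of_lt (norm_zf_le hω) hR
  have hβ : ContinuousOn (fun ω => β (zf ω)) (Rect x₁ x₂) := h.diff.continuousOn.comp hzc hmaps
  have hdβ : ContinuousOn (fun ω => deriv β (zf ω)) (Rect x₁ x₂) :=
    (h.diff.deriv isOpen_ball).continuousOn.comp hzc hmaps
  have hX : ContinuousOn (Xf β a) (Rect x₁ x₂) := by
    have c1 : ContinuousOn zd (Rect x₁ x₂) := by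
      apply ContinuousOn.div (by fun_prop) (by fun_prop)
      intro ω hω
      apply pow_ne_zero
      rw [add_comm]
      exact exp_ne_neg_I hω
    have c2 : ContinuousOn (fun ω => dphi β (zf ω)) (Rect x₁ x₂) := by
      apply ContinuousOn.add _ hdβ
      apply ContinuousOn.neg
      apply ContinuousOn.inv₀ (hzc.pow 2)
      intro ω hω
      exact pow_ne_zero _ (zf_ne_zero h2 hω)
    have c3 : ContinuousOn (fun ω => phi β (zf ω) - phi β (a:ℂ)) (Rect x₁ x₂) := by
      apply ContinuousOn.sub _ continuousOn_const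
      apply ContinuousOn.add _ hβ
      exact hzc.inv₀ (fun ω hω => zf_ne_zero h2 hω)
    apply (c1.mul c2).div (continuousOn_const.mul c3)
    intro ω hω h3
    have h4 : phi β (zf ω) - phi β (a:ℂ) = 0 := by simpa using h3
    have haR : ((a:ℝ):ℂ) ∈ ball (0:ℂ) R := by
      rw [mem_ball, dist_zero_right, Complex.norm_real, Real.norm_of_nonneg ha.le]
      linarith
    exact zf_ne_a ha ha1 h1 hω (h.inj _ _ (hmaps hω) haR (zf_ne_zero h2 hω)
      (by exact_mod_cast ha.ne') (sub_eq_zero.mp h4))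
  have hk : ContinuousOn (kap a) (Rect x₁ x₂) := by
    apply ContinuousOn.div (by fun_prop) (by fun_prop)
    intro ω hω
    exact mul_ne_zero (sq_add_tau_ne ha ha1 h1 hω) (sq_add_one_ne h2 hω)
  exact (((continuousOn_const.mul hX).sub (continuousOn_const.mul hk)).norm).pow 2

/-- E1b: energy on the strip -/
theorem E1b {β : ℂ → ℂ} {R : ℝ} (h : ExtR β R) {a : ℝ} (ha : 0 < a) (ha1 : a < 1) {x₁ x₂ : ℝ}
    (h1 : Real.log (tau a) < x₁) (h12 : x₁ ≤ x₂) (h2 : x₂ < 0) :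
    II x₁ x₂ (fun ξ η => ‖2 * Xf β a (pt ξ η) - 2 * kap a (pt ξ η)‖ ^ 2) ≤
      2 * π * Real.log (‖N β a‖ / (1 - a ^ 2)) := by
  have hF := cont_F h ha ha1 h1 h2
  have hE := h.toExt
  have hB : 0 ≤ 2 * π * Real.log (‖N β a‖ / (1 - a ^ 2)) := by
    have haa : a < (a + 1) / 2 := by linarith
    have haa1 : (a + 1) / 2 < 1 := by linarith
    exact (integral_nonneg fun z => by positivity).trans (E1a hE ha haa haa1).2
  rw [II_eq h12 hF]
  have hSR : Ioo x₁ x₂ ×ℂ Ioo 0 π ⊆ Rect x₁ x₂ := fun ω hω =>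
    ⟨Ioo_subset_Icc_self hω.1, Ioo_subset_Icc_self hω.2⟩
  have hSm : MeasurableSet (Ioo x₁ x₂ ×ℂ Ioo 0 π) :=
    (isOpen_Ioo.reProdIm isOpen_Ioo).measurableSet
  rw [integral_eq_lintegral_of_nonneg_ae (Filter.Eventually.of_forall fun _ => by positivity)
    ((hF.mono hSR).aestronglyMeasurable hSm)]
  apply ENNReal.toReal_le_of_le_ofReal hB
  have hd : ∀ ω ∈ Ioo x₁ x₂ ×ℂ Ioo 0 π, HasFDerivWithinAt zf (zd ω • (1 : ℂ →L[ℝ] ℂ))
      (Ioo x₁ x₂ ×ℂ Ioo 0 π) ω := fun ω hω =>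
    (hasDerivAt_zf (exp_ne_neg_I (hSR hω))).complexToReal_fderiv.hasFDerivWithinAt
  have hinj : InjOn zf (Ioo x₁ x₂ ×ℂ Ioo 0 π) := by
    intro ω hω ω' hω' he
    have e1 := exp_ne_neg_I (hSR hω)
    have e2 := exp_ne_neg_I (hSR hω')
    rw [zf, zf, div_eq_div_iff e1 e2] at he
    have e3 : Complex.exp ω = Complex.exp ω' := by
      have : 2 * I * (Complex.exp ω - Complex.exp ω') = 0 := by linear_combination -he
      have h4 : (2:ℂ) * I ≠ 0 := by simp
      exact sub_eq_zero.mp ((mul_eq_zero.mp this).resolve_left h4)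
    obtain ⟨n, hn⟩ := Complex.exp_eq_exp_iff_exists_int.mp e3
    have h5 := congrArg Complex.im hn
    simp only [Complex.add_im, Complex.mul_im, Complex.intCast_re, Complex.intCast_im,
      Complex.mul_re, Complex.re_ofNat, Complex.im_ofNat, Complex.ofReal_re, Complex.ofReal_im,
      Complex.I_re, Complex.I_im, mul_zero, mul_one, sub_zero, zero_mul, add_zero] at h5
    have hπ := Real.pi_pos
    have h6 := hω.2
    have h7 := hω'.2
    have h6a : 0 < ω.im := h6.1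
    have h6b : ω.im < π := h6.2
    have h7a : 0 < ω'.im := h7.1
    have h7b : ω'.im < π := h7.2
    have h8 : n = 0 := by
      have h9 : (n:ℝ) < 1 := by
        by_contra h10
        push Not at h10
        nlinarith
      have h11 : (-1:ℝ) < n := by
        by_contra h10
        push Not at h10
        nlinarith
      have h9' : n < 1 := by exact_mod_cast h9
      have h11' : -1 < n := by exact_mod_cast h11
      omega
    rw [hn, h8]
    simp
  have himg : zf '' (Ioo x₁ x₂ ×ℂ Ioo 0 π) ⊆ ball 0 1 := by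
    rintro _ ⟨ω, hω, rfl⟩
    rw [mem_ball, dist_zero_right]
    apply norm_zf_lt
    rw [Complex.exp_im]
    exact mul_pos (Real.exp_pos _) (Real.sin_pos_of_pos_of_lt_pi hω.2.1 hω.2.2)
  calc ∫⁻ ω in Ioo x₁ x₂ ×ℂ Ioo 0 π, ENNReal.ofReal (‖2 * Xf β a ω - 2 * kap a ω‖ ^ 2)
      = ∫⁻ ω in Ioo x₁ x₂ ×ℂ Ioo 0 π, ENNReal.ofReal |(zd ω • (1 : ℂ →L[ℝ] ℂ)).det| *
          ENNReal.ofReal (‖Dd β a (zf ω)‖ ^ 2) := by
        apply setLIntegral_congr_fun hSm
        intro ω hω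
        simp only
        rw [det_cmul, ← ENNReal.ofReal_mul (by positivity), ← mul_pow, ← norm_mul,
          zd_Dd ha ha1 h1 h2 (hSR hω)]
    _ = ∫⁻ z in zf '' (Ioo x₁ x₂ ×ℂ Ioo 0 π), ENNReal.ofReal (‖Dd β a z‖ ^ 2) :=
        (lintegral_image_eq_lintegral_abs_det_fderiv_mul volume hSm hd hinj
          (fun z => ENNReal.ofReal (‖Dd β a z‖ ^ 2))).symm
    _ ≤ ∫⁻ z in ball (0:ℂ) 1, ENNReal.ofReal (‖Dd β a z‖ ^ 2) := lintegral_mono_set himg
    _ ≤ _ := lint_ball hE ha ha1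

end Pool.Agent.Helper86.EK
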